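import Pool.Agent.H947R2.TP.Stubs

/-!
# Task C3 of MP_c4753b_co: the order of the coordinates given by Hajos' theorem
-/

open MeasureTheory Filter Topology Set
open scoped ENNReal

namespace H947TP

theorem C3 (hB5 : St_B5) (hB3 : St_B3) (hC1 : St_C1) (hC2 : St_C2) : St_C3 := by
  intro D
  induction D with
  | zero =>
    intro L _
    exact ⟨Equiv.refl _, fun k => k.elim0⟩
  | succ D ih =>
    intro L hL
    obtain ⟨p, hp⟩ := hB5 (D + 1) L (Nat.succ_pos D) hL
    have hL' := hC1 D L p hL hp
    obtain ⟨σ', hσ'⟩ := ih _ hL'
    obtain ⟨-, -, hB⟩ := hB3 (D + 1) L hL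
    set σ : Fin (D + 1) ≃ Fin (D + 1) :=
      (finSuccEquiv' p).trans ((Equiv.optionCongr σ').trans (finSuccEquiv' 0).symm) with hσ
    have h0 : σ p = 0 := by simp [hσ]
    have h1 : ∀ i, σ (p.succAbove i) = (σ' i).succ := by
      intro i; simp [hσ]
    refine ⟨σ, fun k => ?_⟩
    rcases Fin.eq_self_or_eq_succAbove p k with rfl | ⟨k', rfl⟩
    · -- k = p
      have hAA : ∀ u ∈ AA L k, u = Pi.single k (1 : ℝ) := by
        intro u hu
        obtain ⟨hu1, hu2, hu3⟩ := hu
        have h := hB (u - Pi.single k (1 : ℝ)) (L.sub_mem hu1 hp) (by
          intro i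
          by_cases hi : i = k
          · subst hi; simp [hu2]
          · simpa [hi] using hu3 i hi)
        exact sub_eq_zero.mp h
      have hAA' : AA L k = {(Pi.single k (1 : ℝ) : Fin (D + 1) → ℝ)} := by
        ext u
        constructor
        · intro hu; exact hAA u hu
        · intro hu
          have hu' : u = Pi.single k (1 : ℝ) := hu
          subst hu'
          refine ⟨hp, by simp, fun l hl => by simp [hl]⟩
      refine ⟨?_, ?_⟩
      · intro u hu l hl
        rw [hAA u hu]
        have hlk : l ≠ k := by
          rintro rfl; exact lt_irrefl _ hl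
        simp [hlk]
      · intro h _ _
        have hf : Finset.univ.filter (fun l => σ l < σ k) = (∅ : Finset (Fin (D + 1))) := by
          ext l; simp [h0]
        rw [hf]
        simp only [Finset.prod_empty]
        unfold Ex
        rw [hAA', finsum_mem_singleton]
        have : wgt k (Pi.single k (1 : ℝ)) = 1 := by
          unfold wgt
          apply Finset.prod_eq_one
          intro l hl
          have hlk : l ≠ k := Finset.ne_of_mem_erase hl
          simp [hlk]
        rw [this]; norm_num
    · obtain ⟨ha, hb⟩ := hσ' k'
      refine ⟨?_, ?_⟩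
      · intro u hu l hl
        obtain ⟨hu1, hu2, hu3⟩ := hu
        rcases Fin.eq_self_or_eq_succAbove p l with rfl | ⟨l', rfl⟩
        · rw [h0] at hl
          exact absurd hl (Fin.not_lt_zero _)
        · rw [h1, h1, Fin.succ_lt_succ_iff] at hl
          have hmem : remMap p u ∈ AA (L.map (remMap p)) k' := by
            refine ⟨AddSubgroup.mem_map_of_mem _ hu1, hu2, fun l hl => ?_⟩
            exact hu3 _ (fun h => hl (Fin.succAbove_right_injective h))
          exact ha _ hmem l' hl
      · intro h hh1 hh2
        have key : ∀ u : Fin (D + 1) → ℝ,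
            (∏ l ∈ Finset.univ.filter (fun l => σ l < σ (p.succAbove k')), h l |u l|)
            = h p |u p| * (fun w : Fin D → ℝ =>
                ∏ l ∈ Finset.univ.filter (fun l => σ' l < σ' k'), h (p.succAbove l) |w l|)
                  (remMap p u) := by
          intro u
          rw [Finset.prod_filter, Fin.prod_univ_succAbove _ p]
          congr 1
          · rw [h0, h1, if_pos (Fin.succ_pos _)]
          · simp only [h1, Fin.succ_lt_succ_iff]
            rw [← Finset.prod_filter]
            rfl
        have e1 : Ex L (p.succAbove k') (fun u =>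
            ∏ l ∈ Finset.univ.filter (fun l => σ l < σ (p.succAbove k')), h l |u l|)
            = Ex L (p.succAbove k') (fun u => h p |u p| * (fun w : Fin D → ℝ =>
                ∏ l ∈ Finset.univ.filter (fun l => σ' l < σ' k'), h (p.succAbove l) |w l|)
                  (remMap p u)) := by
          congr 1
          funext u
          exact key u
        rw [e1]
        refine le_trans (hC2 D L p hL hp k' (h p) (fun w : Fin D → ℝ =>
                ∏ l ∈ Finset.univ.filter (fun l => σ' l < σ' k'), h (p.succAbove l) |w l|)
                ?_ (hh1 p) (hh2 p)) ?_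
        · intro u hu
          apply Finset.prod_nonneg
          intro l _
          exact hh1 _ _ (abs_nonneg _) (hu l)
        · exact hb (fun l => h (p.succAbove l)) (fun l => hh1 _) (fun l => hh2 _)

end H947TP
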