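import Pool.Agent.H947R2.TP.Stubs

/-!
# Task L4 of MP_c4753b_co: the closed cubes of the limit cover space
-/

open MeasureTheory Filter Topology Set
open scoped ENNReal

namespace H947TP

namespace L4aux

/-- the bounded part of a separated group of vectors is finite -/
theorem finite_box {D : ℕ} (L : AddSubgroup (Fin D → ℝ))
    (hs : ∀ v ∈ L, v ≠ 0 → ∃ l, 1 ≤ |v l|) (R : ℝ) :
    {v : Fin D → ℝ | v ∈ L ∧ ∀ l, |v l| ≤ R}.Finite := by
  have h1 : (Set.Icc (fun _ : Fin D => -⌈R⌉ - 1) (fun _ : Fin D => ⌈R⌉)).Finite :=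
    Set.finite_Icc _ _
  apply Set.Finite.of_finite_image (f := fun v : Fin D → ℝ => fun l => ⌊v l⌋)
  · refine h1.subset ?_
    rintro _ ⟨v, ⟨_, hv⟩, rfl⟩
    constructor
    · intro l
      have h3 := (abs_le.mp (hv l)).1
      have h2 := Int.le_ceil R
      change -⌈R⌉ - 1 ≤ ⌊v l⌋
      rw [Int.le_floor]
      push_cast
      linarith
    · intro l
      have h3 := (abs_le.mp (hv l)).2
      change ⌊v l⌋ ≤ ⌈R⌉
      have h4 : (⌊v l⌋ : ℝ) ≤ ⌈R⌉ := (Int.floor_le _).trans (h3.trans (Int.le_ceil R))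
      exact_mod_cast h4
  · intro v hv w hw hvw
    by_contra hne
    have hne' : v - w ≠ 0 := sub_ne_zero.mpr hne
    obtain ⟨l, hl⟩ := hs _ (L.sub_mem hv.1 hw.1) hne'
    have h5 : ⌊v l⌋ = ⌊w l⌋ := congrFun hvw l
    have h4 := Int.abs_sub_lt_one_of_floor_eq_floor h5
    simp only [Pi.sub_apply] at hl
    linarith

end L4aux

theorem L4 (hL1 : St_L1) (hL2 : St_L2) (hL3 : St_L3) : St_L4 := by
  intro D n b δ G ε Λ U hδ hδ1 hD hn hG hε hεU hsep hF x0
  by_contra hno
  push Not at hno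
  have hs : ∀ v ∈ Lim U Λ, v ≠ 0 → ∃ l, 1 ≤ |v l| :=
    hL2 D n b δ ε Λ U hδ hδ1 hD hn hεU hsep
  -- step 1: the tolerance
  set R : ℝ := (∑ l, |x0 l|) + 2 with hR
  have hfin := L4aux.finite_box (Lim U Λ) hs R
  have htol : ∀ᶠ r in 𝓝 (0 : ℝ), ∀ v ∈ {v : Fin D → ℝ | v ∈ Lim U Λ ∧ ∀ l, |v l| ≤ R},
      ¬ (∀ l, v l - r ≤ x0 l ∧ x0 l ≤ v l + 1 + r) := by
    rw [Filter.eventually_all_finite hfin]
    intro v hv
    obtain ⟨l, hl⟩ := hno v hv.1
    by_cases hvx : v l ≤ x0 l
    · have h2 := hl hvx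
      have h3 : ∀ᶠ r in 𝓝 (0 : ℝ), r < x0 l - (v l + 1) := Iio_mem_nhds (by linarith)
      filter_upwards [h3] with r hr h
      have := (h l).2
      linarith
    · push Not at hvx
      have h3 : ∀ᶠ r in 𝓝 (0 : ℝ), r < v l - x0 l := Iio_mem_nhds (by linarith)
      filter_upwards [h3] with r hr h
      have := (h l).1
      linarith
  obtain ⟨r, hr0, hr1, hrt⟩ : ∃ r : ℝ, 0 < r ∧ r < 1 / 4 ∧
      ∀ v ∈ {v : Fin D → ℝ | v ∈ Lim U Λ ∧ ∀ l, |v l| ≤ R},
      ¬ (∀ l, v l - r ≤ x0 l ∧ x0 l ≤ v l + 1 + r) := by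
    have h1 := htol.filter_mono (nhdsWithin_le_nhds (s := Ioi (0 : ℝ)))
    have h2 : ∀ᶠ r in 𝓝 (0 : ℝ), r < 1 / 4 := Iio_mem_nhds (by norm_num)
    have h2' := h2.filter_mono (nhdsWithin_le_nhds (s := Ioi (0 : ℝ)))
    have h3 : ∀ᶠ r in 𝓝[>] (0 : ℝ), 0 < r := self_mem_nhdsWithin
    obtain ⟨r, h⟩ := (h1.and (h2'.and h3)).exists
    exact ⟨r, h.2.2, h.2.1, h.1⟩
  -- step 2: the small cube is not met by the cubes of `Λ m`
  have hclaim : ∀ᶠ m in (U : Filter ℕ), ∀ v ∈ Λ m, ∀ y : Fin D → ℝ,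
      (∀ l, |y l - x0 l| < r) → ¬ (∀ l, v l ≤ y l ∧ y l < v l + 1) := by
    by_contra hcon
    rw [← Ultrafilter.eventually_not] at hcon
    have hcon' : ∀ᶠ m in (U : Filter ℕ), ∃ v : Fin D → ℝ, v ∈ Λ m ∧
        ∀ l, v l - r ≤ x0 l ∧ x0 l ≤ v l + 1 + r := by
      filter_upwards [hcon] with m hm
      push Not at hm
      obtain ⟨v, hv, y, hy, hvy⟩ := hm
      refine ⟨v, hv, fun l => ?_⟩
      have h1 := abs_lt.mp (hy l)
      have h2 := hvy l
      constructor <;> linarith [h1.1, h1.2, h2.1, h2.2]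
    classical
    let w : ℕ → Fin D → ℝ := fun m =>
      if h : ∃ v : Fin D → ℝ, v ∈ Λ m ∧ ∀ l, v l - r ≤ x0 l ∧ x0 l ≤ v l + 1 + r
      then h.choose else 0
    have hw : ∀ᶠ m in (U : Filter ℕ), w m ∈ Λ m ∧
        ∀ l, w m l - r ≤ x0 l ∧ x0 l ≤ w m l + 1 + r := by
      filter_upwards [hcon'] with m hm
      simp only [w, dif_pos hm]
      exact hm.choose_spec
    have hx0 : ∀ l, |x0 l| ≤ ∑ l, |x0 l| := fun l =>
      Finset.single_le_sum (fun i _ => abs_nonneg (x0 i)) (Finset.mem_univ l)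
    have hbd : ∀ᶠ m in (U : Filter ℕ), w m ∈ Λ m ∧ ∀ l, |w m l| ≤ R := by
      filter_upwards [hw] with m hm
      refine ⟨hm.1, fun l => ?_⟩
      have h1 := hm.2 l
      have h3 := abs_le.mp (hx0 l)
      rw [abs_le]
      constructor
      · linarith [h1.1, h1.2, h3.1, h3.2]
      · linarith [h1.1, h1.2, h3.1, h3.2]
    obtain ⟨x, hx, hlim⟩ := hL3 D Λ U R w hbd
    have hc : ∀ l, Tendsto (fun m => w m l) U (𝓝 (x l)) :=
      fun l => (tendsto_pi_nhds.mp hlim) l
    have hxR : ∀ l, |x l| ≤ R := fun l =>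
      le_of_tendsto (hc l).abs (hbd.mono (fun m hm => hm.2 l))
    refine hrt x ⟨hx, hxR⟩ (fun l => ⟨?_, ?_⟩)
    · have := le_of_tendsto (hc l)
        (hw.mono fun m hm => (by linarith [(hm.2 l).1] : w m l ≤ x0 l + r))
      linarith
    · have := ge_of_tendsto (hc l)
        (hw.mono fun m hm => (by linarith [(hm.2 l).2] : x0 l - 1 - r ≤ w m l))
      linarith
  -- step 3: choose `m`
  have hev : ∀ᶠ m in (U : Filter ℕ), ε m < 1 / 2 := hεU (Iio_mem_nhds (by norm_num))
  have hev2 : ∀ᶠ m in (U : Filter ℕ), 1 < (1 - ε m) ^ D + (2 * r) ^ D := by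
    have ht : Tendsto (fun m => (1 - ε m) ^ D + (2 * r) ^ D) U
        (𝓝 ((1 - 0) ^ D + (2 * r) ^ D)) :=
      ((tendsto_const_nhds.sub hεU).pow D).add tendsto_const_nhds
    refine ht (Ioi_mem_nhds ?_)
    have h5 : 0 < (2 * r) ^ D := by positivity
    simp only [sub_zero, one_pow]
    linarith
  obtain ⟨m, hm1, hm2, hm3⟩ := (hclaim.and (hev.and hev2)).exists
  have hεm := hε m
  obtain ⟨-, F, hFm, hFQ, hFs, hFd, -⟩ :=
    hL1 D n b δ (ε m) (Λ m) hδ hδ1 hεm (by linarith) hD hn (hsep m) _ rfl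
  set B : Set (Fin D → ℝ) := Set.pi univ (fun l => Ioo (x0 l - r) (x0 l + r)) with hB
  have hBm : ∀ y, y ∈ B → ∀ l, |y l - x0 l| < r := by
    intro y hy l
    have h := hy l (mem_univ l)
    rw [abs_lt]
    constructor <;> linarith [h.1, h.2]
  have hBmeas : MeasurableSet B := MeasurableSet.univ_pi (fun l => measurableSet_Ioo)
  have hdisj : Disjoint F B := by
    rw [Set.disjoint_left]
    intro y hy hyB
    refine hm1 0 (Λ m).zero_mem y (hBm y hyB) (fun l => ?_)
    have h := hFQ hy l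
    simp only [Pi.zero_apply, zero_add]
    exact h
  have hvol : ENNReal.ofReal (1 - G * ε m) ≤ volume (F ∪ B) := by
    rw [measure_union hdisj hBmeas]
    have h1 : ENNReal.ofReal ((1 - ε m) ^ D) ≤ volume F := by
      have h2 : Set.pi univ (fun _ : Fin D => Ico (0 : ℝ) (1 - ε m)) ⊆ F := by
        intro y hy
        exact hFs (fun i => ⟨(hy i (mem_univ i)).1, (hy i (mem_univ i)).2⟩)
      refine le_trans ?_ (measure_mono h2)
      rw [Real.volume_pi_Ico]
      simp only [sub_zero, Finset.prod_const, Finset.card_univ, Fintype.card_fin]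
      rw [ENNReal.ofReal_pow (by linarith)]
    have h3 : ENNReal.ofReal ((2 * r) ^ D) ≤ volume B := by
      rw [hB, Real.volume_pi_Ioo]
      have h4 : ∀ l : Fin D, x0 l + r - (x0 l - r) = 2 * r := fun l => by ring
      simp only [h4, Finset.prod_const, Finset.card_univ, Fintype.card_fin]
      rw [ENNReal.ofReal_pow (by linarith)]
    have h5 : (0 : ℝ) ≤ (1 - ε m) ^ D := pow_nonneg (by linarith) _
    have h6 : (0 : ℝ) ≤ (2 * r) ^ D := by positivity
    have h7 : 0 ≤ G * ε m := by positivity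
    calc ENNReal.ofReal (1 - G * ε m) ≤ ENNReal.ofReal ((1 - ε m) ^ D + (2 * r) ^ D) :=
          ENNReal.ofReal_le_ofReal (by linarith)
      _ = ENNReal.ofReal ((1 - ε m) ^ D) + ENNReal.ofReal ((2 * r) ^ D) :=
          ENNReal.ofReal_add h5 h6
      _ ≤ _ := add_le_add h1 h3
  refine absurd (hF m (F ∪ B) (hFm.union hBmeas) ?_ ?_) (not_lt.mpr hvol)
  · -- bounded
    apply Bornology.IsBounded.union
    · refine (Metric.isBounded_Icc (0 : Fin D → ℝ) 1).subset ?_
      intro y hy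
      exact ⟨fun l => (hFQ hy l).1, fun l => (hFQ hy l).2.le⟩
    · refine (Metric.isBounded_Icc (fun l => x0 l - r) (fun l => x0 l + r)).subset ?_
      intro y hy
      exact ⟨fun l => (hy l (mem_univ l)).1.le, fun l => (hy l (mem_univ l)).2.le⟩
  · -- disjointness
    intro v hv hv0
    have hQ : ∀ y ∈ F, ∀ l, 0 ≤ y l ∧ y l < 1 := fun y hy => hFQ hy
    rw [Set.disjoint_left]
    rintro z hz ⟨y, hy, rfl⟩
    rcases hz with hz | hz
    · rcases hy with hy | hy
      · exact Set.disjoint_left.mp (hFd v hv hv0) hz ⟨y, hy, rfl⟩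
      · refine hm1 (-v) ((Λ m).neg_mem hv) y (hBm y hy) (fun l => ?_)
        have h := hQ _ hz l
        simp only [Pi.add_apply] at h
        simp only [Pi.neg_apply]
        constructor <;> linarith [h.1, h.2]
    · rcases hy with hy | hy
      · refine hm1 v hv _ (hBm _ hz) (fun l => ?_)
        have h := hQ _ hy l
        simp only [Pi.add_apply]
        constructor <;> linarith [h.1, h.2]
      · -- both in the small cube: then `v` is short
        have hvs : ∀ l, |v l| < 1 - ε m := by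
          intro l
          have h1 := abs_lt.mp (hBm _ hz l)
          have h2 := abs_lt.mp (hBm _ hy l)
          simp only [Pi.add_apply] at h1
          rw [abs_lt]
          constructor <;> linarith [h1.1, h1.2, h2.1, h2.2]
        have hp : (fun l => max 0 (v l)) ∈ F := by
          apply hFs
          intro l
          refine ⟨le_max_left _ _, max_lt (by linarith) ((le_abs_self _).trans_lt (hvs l))⟩
        have hq : (fun l => max 0 (-v l)) ∈ F := by
          apply hFs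
          intro l
          refine ⟨le_max_left _ _, max_lt (by linarith) ((neg_le_abs _).trans_lt (hvs l))⟩
        refine Set.disjoint_left.mp (hFd v hv hv0) hp ⟨_, hq, ?_⟩
        funext l
        simp only [Pi.add_apply]
        rcases le_total 0 (v l) with h | h
        · rw [max_eq_left (by linarith : -v l ≤ 0), max_eq_right h]; ring
        · rw [max_eq_right (by linarith : 0 ≤ -v l), max_eq_left h]; ring

end H947TP
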